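import Mathlib
import Pool.Agent.P.MP_4d4d44_lc.Main

set_option autoImplicit false

open MeasureTheory

namespace Pool.Agent.Results.MP_4d4d44_lc.UNnotPN

/-- A is universally null: it has outer measure zero for every finite non-atomic Borel measure.
(In Mathlib, the value of a measure on an arbitrary set is its outer measure.) -/
def UniversallyNull {X : Type} [TopologicalSpace X] [MeasurableSpace X] [BorelSpace X]
    (A : Set X) : Prop :=
  ∀ μ : Measure X, IsFiniteMeasure μ → (∀ x, μ {x} = 0) → μ A = 0

/-- A is countably perfectly null: for every finite non-atomic Borel measure, A is contained in a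
countable union of closed sets that has measure zero. -/
def CountablyPerfectlyNull {X : Type} [TopologicalSpace X] [MeasurableSpace X] [BorelSpace X]
    (A : Set X) : Prop :=
  ∀ μ : Measure X, IsFiniteMeasure μ → (∀ x, μ {x} = 0) →
    ∃ F : ℕ → Set X, (∀ n, IsClosed (F n)) ∧ A ⊆ ⋃ n, F n ∧ μ (⋃ n, F n) = 0

/-- Some universally null subset of the Cantor space is not countably perfectly null. -/
theorem result :
    ∃ A : Set (ℕ → Bool), UniversallyNull A ∧ ¬ CountablyPerfectlyNull A := by
  obtain ⟨A, h1, ν, hν1, hν2, hν3⟩ := Pool.Agent.P.MP_4d4d44_lc.main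
  refine ⟨A, h1, fun h => ?_⟩
  obtain ⟨F, hF1, hF2, hF3⟩ := h ν hν1 hν2
  exact hν3 F hF1 hF2 hF3

end Pool.Agent.Results.MP_4d4d44_lc.UNnotPN
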